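import Pool.Agent.Helper42.RZ.St.S6b
import Pool.Agent.Helper42.RZ.St.S8

/-! # RZ-S9: independent cells -/

set_option autoImplicit false

open MeasureTheory Set Metric Filter Topology
open scoped ENNReal

namespace Pool.Agent.Helper64.RZ

open Pool.Agent.Helper42.RZ

/-! ## The kernel -/

theorem measurable_K (s : ℝ) : Measurable (K s) := by
  unfold K
  exact measurable_id.pow_const _

theorem K_nonneg (s : ℝ) {r : ℝ} (hr : 0 ≤ r) : 0 ≤ K s r := Real.rpow_nonneg hr _

/-- the kernel with values in `ℝ≥0∞` -/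
noncomputable def kk (s : ℝ) (a b : E3) : ℝ≥0∞ := ENNReal.ofReal (K s ‖a - b‖)

theorem measurable_kk (s : ℝ) : Measurable (fun p : E3 × E3 => kk s p.1 p.2) := by
  unfold kk
  exact ENNReal.measurable_ofReal.comp
    ((measurable_K s).comp (measurable_norm.comp (measurable_fst.sub measurable_snd)))

theorem measurable_kk_right (s : ℝ) (x : E3) : Measurable (fun z => kk s x z) := by
  unfold kk
  exact ENNReal.measurable_ofReal.comp
    ((measurable_K s).comp (measurable_norm.comp (measurable_const.sub measurable_id)))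

theorem measurable_lintegral_kk (s : ℝ) (ν : Measure E3) [SFinite ν] :
    Measurable (fun x => ∫⁻ z, kk s x z ∂ν) :=
  Measurable.lintegral_prod_right (f := fun a b : E3 => kk s a b) (measurable_kk s)

theorem integrable_K {s : ℝ} (h2 : s < 2) {x : E3} (hx : ‖x‖ = 1) :
    Integrable (fun y => K s ‖x - y‖) sig := by
  rw [integrable_dist hx (measurable_K s)]
  have h1 : IntervalIntegrable (fun r : ℝ => r ^ (1 - s)) volume 0 2 :=
    intervalIntegral.intervalIntegrable_rpow' (by linarith)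
  have h3 : IntegrableOn (fun r : ℝ => r ^ (1 - s)) (Ioo 0 2) :=
    ((intervalIntegrable_iff_integrableOn_Ioc_of_le (by norm_num)).1 h1).mono_set Ioo_subset_Ioc_self
  have h4 : IntegrableOn (fun r : ℝ => r ^ (1 - s) / 2) (Ioo 0 2) := h3.div_const 2
  refine h4.congr_fun ?_ measurableSet_Ioo
  intro r hr
  have hr0 : (0 : ℝ) < r := hr.1
  simp only [K]
  rw [sub_eq_add_neg, add_comm, Real.rpow_add hr0, Real.rpow_one]
  ring

theorem lintegral_kk {s : ℝ} (h0 : 0 < s) (h2 : s < 2) {x : E3} (hx : ‖x‖ = 1) :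
    ∫⁻ y, kk s x y ∂sig = ENNReal.ofReal (Cc s) := by
  unfold kk
  rw [← ofReal_integral_eq_lintegral_ofReal (integrable_K h2 hx)
    (Eventually.of_forall fun y => K_nonneg s (norm_nonneg _)),
    integral_dist hx (measurable_K s), bg_K h0 h2]

theorem Cc_nonneg {s : ℝ} (h2 : s < 2) : 0 ≤ Cc s := by
  unfold Cc
  have : 0 < 2 - s := by linarith
  positivity

theorem lintegral_lintegral_kk {s : ℝ} (h0 : 0 < s) (h2 : s < 2) :
    ∫⁻ x, ∫⁻ y, kk s x y ∂sig ∂sig = ENNReal.ofReal (Cc s) := by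
  have h1 : ∫⁻ x, ∫⁻ y, kk s x y ∂sig ∂sig = ∫⁻ _x, ENNReal.ofReal (Cc s) ∂sig := by
    refine lintegral_congr_ae ?_
    filter_upwards [ae_norm_sig] with x hx
    exact lintegral_kk h0 h2 hx
  rw [h1, lintegral_const, measure_univ, mul_one]

/-- the double Bochner integral over a cell -/
theorem integral_cell {s : ℝ} (h0 : 0 < s) (h2 : s < 2) {C : Set E3} (hC : MeasurableSet C) :
    ∫ x in C, ∫ z in C, K s ‖x - z‖ ∂sig ∂sig =
      (∫⁻ x in C, ∫⁻ z in C, kk s x z ∂sig ∂sig).toReal := by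
  have hm : Measurable (fun x => ∫⁻ z in C, kk s x z ∂sig) := measurable_lintegral_kk s _
  have h1 : ∀ x, ∫ z in C, K s ‖x - z‖ ∂sig = (∫⁻ z in C, kk s x z ∂sig).toReal := by
    intro x
    rw [integral_eq_lintegral_of_nonneg_ae]
    · rfl
    · exact Eventually.of_forall fun y => K_nonneg s (norm_nonneg _)
    · exact ((measurable_K s).comp (measurable_norm.comp
        (measurable_const.sub measurable_id))).aestronglyMeasurable
  simp only [h1]
  rw [integral_toReal hm.aemeasurable]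
  refine ae_restrict_of_ae ?_
  filter_upwards [ae_norm_sig] with x hx
  calc ∫⁻ z in C, kk s x z ∂sig ≤ ∫⁻ z, kk s x z ∂sig := setLIntegral_le_lintegral _ _
    _ = ENNReal.ofReal (Cc s) := lintegral_kk h0 h2 hx
    _ < ∞ := ENNReal.ofReal_lt_top

/-! ## Sums of measures -/

theorem sum_restrict {ι : Type} [Fintype ι] (C : ι → Set E3) (hC : ∀ l, MeasurableSet (C l))
    (hdisj : ∀ l l', l ≠ l' → Disjoint (C l) (C l')) (hfull : ∑ l, sig.real (C l) = 1) :
    ∑ l, sig.restrict (C l) = sig := by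
  have h1 : sig (⋃ l, C l) = 1 := by
    rw [measure_iUnion (fun l l' h => hdisj l l' h) hC, tsum_fintype]
    have h2 : ∀ l, sig (C l) = ENNReal.ofReal (sig.real (C l)) := fun l => by
      rw [Measure.real, ENNReal.ofReal_toReal (measure_ne_top _ _)]
    simp only [h2]
    rw [← ENNReal.ofReal_sum_of_nonneg (fun l _ => measureReal_nonneg), hfull, ENNReal.ofReal_one]
  have h3 : sig.restrict (⋃ l, C l) = sig := by
    refine Measure.restrict_eq_self_of_ae_mem ?_
    have h4 : sig (⋃ l, C l)ᶜ = 0 := by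
      rw [prob_compl_eq_zero_iff (MeasurableSet.iUnion hC)]
      exact h1
    exact h4
  have h5 : sig.restrict (⋃ l, C l) = Measure.sum fun l => sig.restrict (C l) :=
    Measure.restrict_iUnion (fun l l' h => hdisj l l' h) hC
  rw [← Measure.sum_fintype, ← h5, h3]

theorem sum_map {Ω : Type} [MeasurableSpace Ω] (P : Measure Ω) [IsProbabilityMeasure P] (n : ℕ)
    (y : Fin n → Ω → E3) (A : Fin n → Set Ω) (C : Set E3) (N₁ : ℕ)
    (hy : ∀ i, Measurable (y i)) (hA : ∀ i, MeasurableSet (A i))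
    (hmean : ∀ (B : Set E3), MeasurableSet B →
      ∑ i, P.real (A i ∩ y i ⁻¹' B) = N₁ * sig.real (B ∩ C)) :
    ∑ i, (P.restrict (A i)).map (y i) = (N₁ : ℝ≥0∞) • sig.restrict C := by
  ext B hB
  rw [Measure.finsetSum_apply, Measure.smul_apply, Measure.restrict_apply hB, smul_eq_mul]
  have h1 : ∀ i, ((P.restrict (A i)).map (y i)) B = ENNReal.ofReal (P.real (A i ∩ y i ⁻¹' B)) := by
    intro i
    rw [Measure.map_apply (hy i) hB, Measure.restrict_apply (hy i hB), Set.inter_comm,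
      Measure.real, ENNReal.ofReal_toReal (measure_ne_top _ _)]
  simp only [h1]
  rw [← ENNReal.ofReal_sum_of_nonneg (fun l _ => measureReal_nonneg), hmean B hB,
    ENNReal.ofReal_mul (by positivity), ENNReal.ofReal_natCast, Measure.real,
    ENNReal.ofReal_toReal (measure_ne_top _ _)]

/-! ## The pointwise inequality -/

theorem minE_card_le {s : ℝ} {α : Type} [DecidableEq α] (Y : α → E3) (T : Finset α)
    (hY : ∀ a ∈ T, ∀ b ∈ T, Y a = Y b → a = b) (h1 : ∀ a ∈ T, ‖Y a‖ = 1) :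
    minE s T.card ≤ ∑ q ∈ T.offDiag, K s ‖Y q.1 - Y q.2‖ := by
  set e : Fin T.card ≃ T := T.equivFin.symm with he
  have hconf : Conf (fun i : Fin T.card => Y (e i)) := by
    refine ⟨?_, fun i => h1 _ (e i).2⟩
    intro i j hij
    exact e.injective (Subtype.ext (hY _ (e i).2 _ (e j).2 hij))
  refine (minE_le_PS hconf).trans (le_of_eq ?_)
  unfold PS
  refine Finset.sum_bij (fun p _ => ((e p.1 : α), (e p.2 : α))) ?_ ?_ ?_ ?_
  · rintro ⟨i, j⟩ hp
    rw [Finset.mem_offDiag] at hp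
    rw [Finset.mem_offDiag]
    exact ⟨(e i).2, (e j).2, fun h => hp.2.2 (e.injective (Subtype.ext h))⟩
  · rintro ⟨i, j⟩ _ ⟨i', j'⟩ _ h
    rw [Prod.mk.injEq] at h
    exact Prod.ext (e.injective (Subtype.ext h.1)) (e.injective (Subtype.ext h.2))
  · rintro ⟨a, b⟩ hq
    rw [Finset.mem_offDiag] at hq
    refine ⟨(e.symm ⟨a, hq.1⟩, e.symm ⟨b, hq.2.1⟩), ?_, ?_⟩
    · rw [Finset.mem_offDiag]
      refine ⟨Finset.mem_univ _, Finset.mem_univ _, fun h => hq.2.2 ?_⟩
      exact congrArg Subtype.val (e.symm.injective h)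
    · simp
  · rintro ⟨i, j⟩ _
    rfl

/-! ## Integrals over the product space -/

theorem lintegral_one {ι Ω : Type} [Fintype ι] [MeasurableSpace Ω] (P : Measure Ω)
    [IsProbabilityMeasure P] (l : ι) {f : Ω → ℝ≥0∞} (hf : Measurable f) :
    ∫⁻ ω, f (ω l) ∂(Measure.pi fun _ : ι => P) = ∫⁻ a, f a ∂P :=
  (measurePreserving_eval (fun _ : ι => P) l).lintegral_comp hf

theorem lintegral_two {ι Ω : Type} [Fintype ι] [MeasurableSpace Ω] (P : Measure Ω)
    [IsProbabilityMeasure P] {l l' : ι} (h : l ≠ l') {f : Ω × Ω → ℝ≥0∞} (hf : Measurable f) :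
    ∫⁻ ω, f (ω l, ω l') ∂(Measure.pi fun _ : ι => P) = ∫⁻ a, ∫⁻ b, f (a, b) ∂P ∂P := by
  have hi : ProbabilityTheory.iIndepFun (fun (i : ι) (ω : ι → Ω) => ω i)
      (Measure.pi fun _ : ι => P) :=
    ProbabilityTheory.iIndepFun_pi (X := fun (_ : ι) (a : Ω) => a) (fun i => aemeasurable_id)
  have h2 := hi.indepFun h
  have h3 := (ProbabilityTheory.indepFun_iff_map_prod_eq_prod_map_map
    (measurable_pi_apply l).aemeasurable (measurable_pi_apply l').aemeasurable).1 h2
  have h4 : ∀ i : ι, Measure.map (fun ω : ι → Ω => ω i) (Measure.pi fun _ : ι => P) = P :=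
    fun i => (measurePreserving_eval (fun _ : ι => P) i).map_eq
  rw [h4, h4] at h3
  rw [← lintegral_prod _ hf.aemeasurable, ← h3, lintegral_map hf]
  exact (measurable_pi_apply l).prodMk (measurable_pi_apply l')

/-- two cells: the mean measures multiply -/
theorem cross {s : ℝ} {Ω : Type} [MeasurableSpace Ω] (P : Measure Ω) [IsProbabilityMeasure P]
    (n : ℕ) (y y' : Fin n → Ω → E3) (A A' : Fin n → Set Ω) (C C' : Set E3) (N₁ : ℕ)
    (hy : ∀ i, Measurable (y i)) (hy' : ∀ i, Measurable (y' i))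
    (hA : ∀ i, MeasurableSet (A i)) (hA' : ∀ i, MeasurableSet (A' i))
    (hmean : ∑ i, (P.restrict (A i)).map (y i) = (N₁ : ℝ≥0∞) • sig.restrict C)
    (hmean' : ∑ i, (P.restrict (A' i)).map (y' i) = (N₁ : ℝ≥0∞) • sig.restrict C') :
    ∑ i, ∑ j, ∫⁻ a, ∫⁻ b, (A i ×ˢ A' j).indicator (fun q : Ω × Ω => kk s (y i q.1) (y' j q.2))
      (a, b) ∂P ∂P = (N₁ : ℝ≥0∞) ^ 2 * ∫⁻ x in C, ∫⁻ z in C', kk s x z ∂sig ∂sig := by
  have h1 : ∀ i j, ∫⁻ a, ∫⁻ b, (A i ×ˢ A' j).indicator
      (fun q : Ω × Ω => kk s (y i q.1) (y' j q.2)) (a, b) ∂P ∂P =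
      ∫⁻ x, ∫⁻ z, kk s x z ∂((P.restrict (A' j)).map (y' j)) ∂((P.restrict (A i)).map (y i)) := by
    intro i j
    have hk : ∀ x, Measurable (fun z => kk s x z) := measurable_kk_right s
    have hk2 : Measurable (fun x => ∫⁻ z, kk s x z ∂((P.restrict (A' j)).map (y' j))) :=
      measurable_lintegral_kk s _
    rw [lintegral_map hk2 (hy i), ← lintegral_indicator (hA i)]
    refine lintegral_congr fun a => ?_
    by_cases ha : a ∈ A i
    · rw [Set.indicator_of_mem ha, lintegral_map (hk _) (hy' j), ← lintegral_indicator (hA' j)]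
      refine lintegral_congr fun b => ?_
      by_cases hb : b ∈ A' j
      · rw [Set.indicator_of_mem hb, Set.indicator_of_mem (show (a, b) ∈ A i ×ˢ A' j from ⟨ha, hb⟩)]
      · rw [Set.indicator_of_notMem hb, Set.indicator_of_notMem (fun h => hb h.2)]
    · rw [Set.indicator_of_notMem ha]
      have : ∀ b, (A i ×ˢ A' j).indicator
          (fun q : Ω × Ω => kk s (y i q.1) (y' j q.2)) (a, b) = 0 := fun b =>
        Set.indicator_of_notMem (fun h => ha h.1) _
      simp only [this, lintegral_zero]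
  simp only [h1]
  have h2 : ∀ (μ : Measure E3), ∑ j, ∫⁻ x, ∫⁻ z, kk s x z ∂((P.restrict (A' j)).map (y' j)) ∂μ =
      ∫⁻ x, ∫⁻ z, kk s x z ∂((N₁ : ℝ≥0∞) • sig.restrict C') ∂μ := by
    intro μ
    rw [← lintegral_finsetSum]
    · refine lintegral_congr fun x => ?_
      rw [← hmean', lintegral_finsetSum_measure]
    · intro j _
      exact measurable_lintegral_kk s _
  simp only [h2]
  rw [← lintegral_finsetSum_measure, hmean, lintegral_smul_measure]
  simp only [lintegral_smul_measure, smul_eq_mul]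
  rw [lintegral_const_mul _ (measurable_lintegral_kk s _), ← mul_assoc, sq]

/-! ## Sums -/

theorem sum_offDiag_eq {α : Type} [Fintype α] [DecidableEq α] {M : Type} [AddCommMonoid M]
    (f : α → α → M) : ∑ q ∈ (Finset.univ : Finset α).offDiag, f q.1 q.2 =
      ∑ a, ∑ b, if a ≠ b then f a b else 0 := by
  rw [← Fintype.sum_prod_type' (f := fun a b => if a ≠ b then f a b else 0), ← Finset.sum_filter]
  refine Finset.sum_congr ?_ fun _ _ => rfl
  ext q
  simp [Finset.mem_offDiag]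

theorem sum_cells {ι : Type} [Fintype ι] [DecidableEq ι] (n : ℕ)
    (φ : ι × Fin n → ι × Fin n → ℝ≥0∞) (I : ι → ι → ℝ≥0∞)
    (h : ∀ l l', l ≠ l' → ∑ i, ∑ j, φ (l, i) (l', j) = I l l') :
    ∑ q ∈ (Finset.univ : Finset (ι × Fin n)).offDiag, φ q.1 q.2 + ∑ l, I l l =
      ∑ l, ∑ q ∈ (Finset.univ : Finset (Fin n)).offDiag, φ (l, q.1) (l, q.2) +
        ∑ l, ∑ l', I l l' := by
  have h1 : ∑ q ∈ (Finset.univ : Finset (ι × Fin n)).offDiag, φ q.1 q.2 =
      ∑ l, ∑ l', ∑ i, ∑ j, if ((l, i) : ι × Fin n) ≠ (l', j) then φ (l, i) (l', j) else 0 := by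
    rw [sum_offDiag_eq, Fintype.sum_prod_type]
    refine Finset.sum_congr rfl fun l _ => ?_
    rw [Finset.sum_comm' (t' := Finset.univ) (s' := fun _ => Finset.univ) (by simp)]
    rw [Fintype.sum_prod_type]
    refine Finset.sum_congr rfl fun l' _ => ?_
    rw [Finset.sum_comm]
  rw [h1, ← Finset.sum_add_distrib, ← Finset.sum_add_distrib]
  refine Finset.sum_congr rfl fun l _ => ?_
  rw [← Finset.add_sum_erase _ _ (Finset.mem_univ l), ← Finset.add_sum_erase (a := l)
    (f := fun l' => I l l') _ (Finset.mem_univ l)]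
  have h2 : ∑ i, ∑ j, (if ((l, i) : ι × Fin n) ≠ (l, j) then φ (l, i) (l, j) else 0) =
      ∑ q ∈ (Finset.univ : Finset (Fin n)).offDiag, φ (l, q.1) (l, q.2) := by
    rw [sum_offDiag_eq (fun i j => φ (l, i) (l, j))]
    refine Finset.sum_congr rfl fun i _ => Finset.sum_congr rfl fun j _ => ?_
    simp
  have h3 : ∑ l' ∈ Finset.univ.erase l, ∑ i, ∑ j,
      (if ((l, i) : ι × Fin n) ≠ (l', j) then φ (l, i) (l', j) else 0) =
      ∑ l' ∈ Finset.univ.erase l, I l l' := by
    refine Finset.sum_congr rfl fun l' hl' => ?_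
    have hne : l ≠ l' := (Finset.ne_of_mem_erase hl').symm
    rw [← h l l' hne]
    refine Finset.sum_congr rfl fun i _ => Finset.sum_congr rfl fun j _ => ?_
    rw [if_pos]
    intro hh
    exact hne (congrArg Prod.fst hh)
  rw [h2, h3]
  ring

/-- In every cell `C l` there is a random set of points `y l i ω` (`i` such that `ω ∈ A l i`) with
mean measure `N₁ sig` on `C l`; the sets in different cells are independent. -/
theorem paste {s : ℝ} (h0 : 0 < s) (h2 : s < 2) {ι Ω : Type} [Fintype ι] [MeasurableSpace Ω]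
    (P : Measure Ω) [IsProbabilityMeasure P] (n : ℕ) (y : ι → Fin n → Ω → E3)
    (A : ι → Fin n → Set Ω) (C : ι → Set E3) (N₁ : ℕ)
    (hy : ∀ l i, Measurable (y l i)) (hA : ∀ l i, MeasurableSet (A l i))
    (hC : ∀ l, MeasurableSet (C l)) (hdisj : ∀ l l', l ≠ l' → Disjoint (C l) (C l'))
    (hmem : ∀ l i ω, ω ∈ A l i → ‖y l i ω‖ = 1 ∧ y l i ω ∈ C l)
    (hsep : ∃ δ : ℝ, 0 < δ ∧ ∀ l i j, i ≠ j → ∀ ω ∈ A l i ∩ A l j, δ ≤ ‖y l i ω - y l j ω‖)
    (hmean : ∀ l (B : Set E3), MeasurableSet B →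
      ∑ i, P.real (A l i ∩ y l i ⁻¹' B) = N₁ * sig.real (B ∩ C l))
    (hfull : ∑ l, sig.real (C l) = 1) (β : ℝ)
    (hβ : ∀ N' : ℕ, β ≤ minE s N' - 2 * N₁ * Cc s * N' + Cc s * (N₁ : ℝ) ^ 2) :
    β ≤ ∑ l, ∑ p ∈ (Finset.univ : Finset (Fin n)).offDiag,
        ∫ ω in A l p.1 ∩ A l p.2, K s ‖y l p.1 ω - y l p.2 ω‖ ∂P -
      (N₁ : ℝ) ^ 2 * ∑ l, ∫ x in C l, ∫ z in C l, K s ‖x - z‖ ∂sig ∂sig := by
  classical
  obtain ⟨δ, hδ, hsep⟩ := hsep
  set Pr : Measure (ι → Ω) := Measure.pi fun _ : ι => P with hPi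
  -- the set where both points are present
  set B : ι × Fin n → ι × Fin n → Set (ι → Ω) := fun p q =>
    {ω | ω p.1 ∈ A p.1 p.2 ∧ ω q.1 ∈ A q.1 q.2} with hB
  have hBm : ∀ p q, MeasurableSet (B p q) := fun p q =>
    ((measurable_pi_apply p.1) (hA p.1 p.2)).inter ((measurable_pi_apply q.1) (hA q.1 q.2))
  -- the pair function
  set G : ι × Fin n → ι × Fin n → (ι → Ω) → ℝ := fun p q =>
    (B p q).indicator fun ω => K s ‖y p.1 p.2 (ω p.1) - y q.1 q.2 (ω q.1)‖ with hG
  have hGm : ∀ p q, Measurable (G p q) := by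
    intro p q
    refine Measurable.indicator ?_ (hBm p q)
    exact (measurable_K s).comp (measurable_norm.comp
      (((hy p.1 p.2).comp (measurable_pi_apply p.1)).sub
        ((hy q.1 q.2).comp (measurable_pi_apply q.1))))
  have hG0 : ∀ p q ω, 0 ≤ G p q ω := fun p q ω =>
    Set.indicator_nonneg (fun ω _ => K_nonneg s (norm_nonneg _)) ω
  set F : (ι → Ω) → ℝ := fun ω => ∑ q ∈ (Finset.univ : Finset (ι × Fin n)).offDiag, G q.1 q.2 ω
    with hF
  have hFm : Measurable F := Finset.measurable_fun_sum _ fun q _ => hGm q.1 q.2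
  have hF0 : ∀ ω, 0 ≤ F ω := fun ω => Finset.sum_nonneg fun q _ => hG0 _ _ _
  -- the number of points
  set T : (ι → Ω) → Finset (ι × Fin n) := fun ω =>
    Finset.univ.filter fun p => ω p.1 ∈ A p.1 p.2 with hT
  set cnt : (ι → Ω) → ℝ := fun ω => ((T ω).card : ℝ) with hcnt
  have hcnt' : ∀ ω, cnt ω = ∑ p : ι × Fin n, ({ω : ι → Ω | ω p.1 ∈ A p.1 p.2}).indicator 1 ω := by
    intro ω
    rw [hcnt]
    simp only [hT, Finset.card_filter, Set.indicator_apply, Set.mem_ofPred_eq, Pi.one_apply]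
    push_cast
    rfl
  -- the pointwise inequality
  have hpt : ∀ ω, β ≤ F ω - 2 * N₁ * Cc s * cnt ω + Cc s * (N₁ : ℝ) ^ 2 := by
    intro ω
    refine (hβ (T ω).card).trans ?_
    have h3 : minE s (T ω).card ≤ F ω := by
      refine (minE_card_le (fun p : ι × Fin n => y p.1 p.2 (ω p.1)) (T ω) ?_ ?_).trans
        (le_of_eq ?_)
      · rintro ⟨l, i⟩ ha ⟨l', j⟩ hb hab
        simp only [hT, Finset.mem_filter, Finset.mem_univ, true_and] at ha hb
        simp only at hab
        have h4 : l = l' := by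
          by_contra hne
          have h5 := hdisj l l' hne
          exact Set.disjoint_left.1 h5 (hmem l i _ ha).2 (hab ▸ (hmem l' j _ hb).2)
        subst h4
        have h6 : i = j := by
          by_contra hne
          have := hsep l i j hne (ω l) ⟨ha, hb⟩
          rw [hab, sub_self, norm_zero] at this
          linarith
        rw [h6]
      · rintro ⟨l, i⟩ ha
        simp only [hT, Finset.mem_filter, Finset.mem_univ, true_and] at ha
        exact (hmem l i _ ha).1
      · rw [hF]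
        have h7 : (T ω).offDiag =
            (Finset.univ : Finset (ι × Fin n)).offDiag.filter fun q => ω ∈ B q.1 q.2 := by
          ext q
          simp only [Finset.mem_offDiag, Finset.mem_filter, hT, hB, Finset.mem_univ, true_and,
            Set.mem_ofPred_eq]
          tauto
        rw [h7, Finset.sum_filter]
        refine Finset.sum_congr rfl fun q _ => ?_
        rw [hG]
        simp only [Set.indicator_apply]
    linarith
  -- the mean number of points
  have hone : ∀ p : ι × Fin n, Pr.real {ω : ι → Ω | ω p.1 ∈ A p.1 p.2} = P.real (A p.1 p.2) := by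
    intro p
    have := (measurePreserving_eval (fun _ : ι => P) p.1).measure_preimage
      (hA p.1 p.2).nullMeasurableSet
    rw [Measure.real, Measure.real, ← this]
    rfl
  have hicnt : ∀ p : ι × Fin n,
      Integrable (({ω : ι → Ω | ω p.1 ∈ A p.1 p.2}).indicator (1 : (ι → Ω) → ℝ)) Pr := fun p =>
    (integrable_const (1 : ℝ)).indicator ((measurable_pi_apply p.1) (hA p.1 p.2))
  have hcm : Integrable cnt Pr := by
    have : cnt = fun ω => ∑ p : ι × Fin n, ({ω : ι → Ω | ω p.1 ∈ A p.1 p.2}).indicator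
      (1 : (ι → Ω) → ℝ) ω := funext hcnt'
    rw [this]
    exact integrable_finsetSum _ fun p _ => hicnt p
  have hcint : ∫ ω, cnt ω ∂Pr = N₁ := by
    simp only [hcnt']
    rw [integral_finsetSum _ fun p _ => hicnt p]
    have h3 : ∀ p : ι × Fin n, ∫ ω, ({ω : ι → Ω | ω p.1 ∈ A p.1 p.2}).indicator
        (1 : (ι → Ω) → ℝ) ω ∂Pr = P.real (A p.1 p.2) := by
      intro p
      have hms : MeasurableSet {ω : ι → Ω | ω p.1 ∈ A p.1 p.2} :=
        (measurable_pi_apply p.1) (hA p.1 p.2)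
      rw [integral_indicator_one hms, hone p]
    simp only [h3]
    rw [Fintype.sum_prod_type]
    have h4 : ∀ l, ∑ i, P.real (A l i) = N₁ * sig.real (C l) := by
      intro l
      have := hmean l Set.univ MeasurableSet.univ
      simpa using this
    simp only [h4]
    rw [← Finset.mul_sum, hfull, mul_one]
  -- the pair terms
  set φ : ι × Fin n → ι × Fin n → ℝ≥0∞ := fun p q => ∫⁻ ω, ENNReal.ofReal (G p q ω) ∂Pr with hφ
  set I : ι → ι → ℝ≥0∞ := fun l l' =>
    (N₁ : ℝ≥0∞) ^ 2 * ∫⁻ x in C l, ∫⁻ z in C l', kk s x z ∂sig ∂sig with hI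
  have hcross : ∀ l l', l ≠ l' → ∑ i, ∑ j, φ (l, i) (l', j) = I l l' := by
    intro l l' hne
    rw [hI]
    simp only
    rw [← cross P n (y l) (y l') (A l) (A l') (C l) (C l') N₁ (hy l) (hy l') (hA l) (hA l')
      (sum_map P n (y l) (A l) (C l) N₁ (hy l) (hA l) (hmean l))
      (sum_map P n (y l') (A l') (C l') N₁ (hy l') (hA l') (hmean l'))]
    refine Finset.sum_congr rfl fun i _ => Finset.sum_congr rfl fun j _ => ?_
    rw [hφ]
    simp only
    have hm : Measurable ((A l i ×ˢ A l' j).indicator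
        fun q : Ω × Ω => kk s (y l i q.1) (y l' j q.2)) := by
      refine Measurable.indicator ?_ ((hA l i).prod (hA l' j))
      unfold kk
      exact ENNReal.measurable_ofReal.comp ((measurable_K s).comp (measurable_norm.comp
        (((hy l i).comp measurable_fst).sub ((hy l' j).comp measurable_snd))))
    rw [← lintegral_two P hne hm]
    refine lintegral_congr fun ω => ?_
    rw [hG]
    simp only [hB]
    by_cases hω : ω l ∈ A l i ∧ ω l' ∈ A l' j
    · rw [Set.indicator_of_mem (show ω ∈ {ω : ι → Ω | ω l ∈ A l i ∧ ω l' ∈ A l' j} from hω),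
        Set.indicator_of_mem (show (ω l, ω l') ∈ A l i ×ˢ A l' j from hω)]
      rfl
    · rw [Set.indicator_of_notMem
        (show ω ∉ {ω : ι → Ω | ω l ∈ A l i ∧ ω l' ∈ A l' j} from hω),
        Set.indicator_of_notMem (show (ω l, ω l') ∉ A l i ×ˢ A l' j from hω), ENNReal.ofReal_zero]
  have hwithin : ∀ l i j, i ≠ j → φ (l, i) (l, j) =
      ENNReal.ofReal (∫ ω in A l i ∩ A l j, K s ‖y l i ω - y l j ω‖ ∂P) := by
    intro l i j hij
    have hm : Measurable ((A l i ∩ A l j).indicator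
        fun a : Ω => ENNReal.ofReal (K s ‖y l i a - y l j a‖)) := by
      refine Measurable.indicator ?_ ((hA l i).inter (hA l j))
      exact ENNReal.measurable_ofReal.comp ((measurable_K s).comp (measurable_norm.comp
        ((hy l i).sub (hy l j))))
    have h3 : φ (l, i) (l, j) = ∫⁻ a, (A l i ∩ A l j).indicator
        (fun a : Ω => ENNReal.ofReal (K s ‖y l i a - y l j a‖)) a ∂P := by
      rw [← lintegral_one P l hm, hφ]
      refine lintegral_congr fun ω => ?_
      rw [hG]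
      simp only [hB]
      by_cases hω : ω l ∈ A l i ∧ ω l ∈ A l j
      · rw [Set.indicator_of_mem (show ω ∈ {ω : ι → Ω | ω l ∈ A l i ∧ ω l ∈ A l j} from hω),
          Set.indicator_of_mem (show ω l ∈ A l i ∩ A l j from hω)]
      · rw [Set.indicator_of_notMem
          (show ω ∉ {ω : ι → Ω | ω l ∈ A l i ∧ ω l ∈ A l j} from hω),
          Set.indicator_of_notMem (show ω l ∉ A l i ∩ A l j from hω), ENNReal.ofReal_zero]
    rw [h3, lintegral_indicator ((hA l i).inter (hA l j)), ofReal_integral_eq_lintegral_ofReal]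
    · refine Measure.integrableOn_of_bounded (M := K s δ) (measure_ne_top _ _) ?_ ?_
      · exact ((measurable_K s).comp (measurable_norm.comp
          ((hy l i).sub (hy l j)))).aestronglyMeasurable
      · refine (ae_restrict_iff' ((hA l i).inter (hA l j))).2 (Eventually.of_forall ?_)
        intro ω hω
        rw [Real.norm_of_nonneg (K_nonneg s (norm_nonneg _))]
        exact Real.rpow_le_rpow_of_nonpos hδ (hsep l i j hij ω hω) (by linarith)
    · exact Eventually.of_forall fun ω => K_nonneg s (norm_nonneg _)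
  have hFl : ∫⁻ ω, ENNReal.ofReal (F ω) ∂Pr =
      ∑ q ∈ (Finset.univ : Finset (ι × Fin n)).offDiag, φ q.1 q.2 := by
    have h3 : ∀ ω, ENNReal.ofReal (F ω) = ∑ q ∈ (Finset.univ : Finset (ι × Fin n)).offDiag,
        ENNReal.ofReal (G q.1 q.2 ω) := fun ω =>
      ENNReal.ofReal_sum_of_nonneg fun q _ => hG0 _ _ _
    simp only [h3]
    rw [lintegral_finsetSum]
    intro q _
    exact ENNReal.measurable_ofReal.comp (hGm q.1 q.2)
  have htot := sum_cells n φ I hcross
  rw [← hFl] at htot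
  -- the total over all pairs of cells
  have hall : ∑ l, ∑ l', I l l' = (N₁ : ℝ≥0∞) ^ 2 * ENNReal.ofReal (Cc s) := by
    rw [← lintegral_lintegral_kk h0 h2, hI]
    simp only [← Finset.mul_sum]
    congr 1
    have hs := sum_restrict C hC hdisj hfull
    have h3 : ∀ l, ∑ l', ∫⁻ x in C l, ∫⁻ z in C l', kk s x z ∂sig ∂sig =
        ∫⁻ x in C l, ∫⁻ z, kk s x z ∂sig ∂sig := by
      intro l
      rw [← lintegral_finsetSum _ (fun l' _ => measurable_lintegral_kk s _)]
      refine lintegral_congr fun x => ?_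
      rw [← lintegral_finsetSum_measure, hs]
    simp only [h3]
    rw [← lintegral_finsetSum_measure, hs]
  have hw : ∀ l, ∑ q ∈ (Finset.univ : Finset (Fin n)).offDiag, φ (l, q.1) (l, q.2) =
      ENNReal.ofReal (∑ q ∈ (Finset.univ : Finset (Fin n)).offDiag,
        ∫ ω in A l q.1 ∩ A l q.2, K s ‖y l q.1 ω - y l q.2 ω‖ ∂P) := by
    intro l
    rw [ENNReal.ofReal_sum_of_nonneg]
    · refine Finset.sum_congr rfl fun q hq => ?_
      exact hwithin l q.1 q.2 (Finset.mem_offDiag.1 hq).2.2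
    · intro q _
      exact integral_nonneg fun ω => K_nonneg s (norm_nonneg _)
  simp only [hw] at htot
  rw [hall, ← ENNReal.ofReal_sum_of_nonneg] at htot
  swap
  · intro l _
    exact Finset.sum_nonneg fun q _ => integral_nonneg fun ω => K_nonneg s (norm_nonneg _)
  set W : ℝ := ∑ l, ∑ q ∈ (Finset.univ : Finset (Fin n)).offDiag,
        ∫ ω in A l q.1 ∩ A l q.2, K s ‖y l q.1 ω - y l q.2 ω‖ ∂P with hW
  have hW0 : 0 ≤ W := Finset.sum_nonneg fun l _ =>
    Finset.sum_nonneg fun q _ => integral_nonneg fun ω => K_nonneg s (norm_nonneg _)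
  have hfin : ENNReal.ofReal W + (N₁ : ℝ≥0∞) ^ 2 * ENNReal.ofReal (Cc s) ≠ ∞ := by
    refine ENNReal.add_ne_top.2 ⟨ENNReal.ofReal_ne_top, ENNReal.mul_ne_top ?_ ENNReal.ofReal_ne_top⟩
    exact ENNReal.pow_ne_top (ENNReal.natCast_ne_top _)
  have hEfin : ∫⁻ ω, ENNReal.ofReal (F ω) ∂Pr ≠ ∞ := by
    refine ne_top_of_le_ne_top hfin ?_
    rw [← htot]
    exact le_self_add
  have hIfin : ∑ l, I l l ≠ ∞ := by
    refine ne_top_of_le_ne_top hfin ?_
    rw [← htot]
    exact le_add_self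
  have hFint : Integrable F Pr := by
    refine ⟨hFm.aestronglyMeasurable, ?_⟩
    rw [hasFiniteIntegral_iff_ofReal (Eventually.of_forall hF0)]
    exact lt_top_iff_ne_top.2 hEfin
  have hFval : ∫ ω, F ω ∂Pr = (∫⁻ ω, ENNReal.ofReal (F ω) ∂Pr).toReal :=
    integral_eq_lintegral_of_nonneg_ae (Eventually.of_forall hF0) hFm.aestronglyMeasurable
  have hIval : (∑ l, I l l).toReal =
      (N₁ : ℝ) ^ 2 * ∑ l, ∫ x in C l, ∫ z in C l, K s ‖x - z‖ ∂sig ∂sig := by
    rw [ENNReal.toReal_sum, Finset.mul_sum]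
    · refine Finset.sum_congr rfl fun l _ => ?_
      rw [hI]
      simp only
      rw [ENNReal.toReal_mul, integral_cell h0 h2 (hC l), ENNReal.toReal_pow,
        ENNReal.toReal_natCast]
    · intro l hl
      exact ENNReal.sum_ne_top.1 hIfin l hl
  have hreal := congrArg ENNReal.toReal htot
  rw [ENNReal.toReal_add hEfin hIfin, ENNReal.toReal_add ENNReal.ofReal_ne_top
    (ENNReal.mul_ne_top (ENNReal.pow_ne_top (ENNReal.natCast_ne_top _)) ENNReal.ofReal_ne_top),
    ENNReal.toReal_ofReal hW0, ENNReal.toReal_mul, ENNReal.toReal_ofReal (Cc_nonneg h2),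
    ENNReal.toReal_pow, ENNReal.toReal_natCast, ← hFval, hIval] at hreal
  have hfinal : β ≤ ∫ ω, (F ω - 2 * N₁ * Cc s * cnt ω + Cc s * (N₁ : ℝ) ^ 2) ∂Pr := by
    have h3 : Integrable (fun ω => F ω - 2 * N₁ * Cc s * cnt ω + Cc s * (N₁ : ℝ) ^ 2) Pr :=
      (hFint.sub (hcm.const_mul _)).add (integrable_const _)
    have h4 := integral_mono (integrable_const β) h3 hpt
    rwa [integral_const, probReal_univ, one_smul] at h4
  have i1 : Integrable (fun ω => 2 * N₁ * Cc s * cnt ω) Pr := hcm.const_mul _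
  have i2 : Integrable (fun ω => F ω - 2 * N₁ * Cc s * cnt ω) Pr := hFint.sub i1
  have e1 : ∫ ω, (F ω - 2 * N₁ * Cc s * cnt ω + Cc s * (N₁ : ℝ) ^ 2) ∂Pr =
      ∫ ω, F ω ∂Pr - 2 * N₁ * Cc s * N₁ + Cc s * (N₁ : ℝ) ^ 2 := by
    rw [integral_add i2 (integrable_const _), integral_sub hFint i1, integral_const_mul, hcint,
      integral_const, probReal_univ, one_smul]
  rw [e1] at hfinal
  linarith [hfinal, hreal]

end Pool.Agent.Helper64.RZ
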